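import Pool.Agent.helper10.QT.SpecX

set_option autoImplicit false

namespace Pool.Agent.AT

open Finset Pool.Agent.helper85.FC

/-- THM: the forms `n + m h_i` are admissible. -/
theorem THM : THM_stmt := by
  intro m h h0 h1 h2 h3 p hp
  have hcast : ∀ (n : ℕ) (i : Fin 4),
      (((((1 : ℕ), m * h i) : ℕ × ℤ).1 : ℕ) : ℤ) * (n : ℤ) + (((1 : ℕ), m * h i) : ℕ × ℤ).2 =
        (n : ℤ) + m * h i := by
    intro n i
    push_cast
    ring
  rcases Nat.lt_or_ge p 5 with hlt | hge
  · have hp2 := hp.two_le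
    have h23 : p = 2 ∨ p = 3 := by
      interval_cases p
      · exact Or.inl rfl
      · exact Or.inr rfl
      · exact absurd hp (by norm_num)
    rcases h23 with rfl | rfl
    · refine ⟨1, fun i => ?_⟩
      rw [hcast]
      have key : ∀ x : ℤ, (2 : ℤ) ∣ x → ¬ ((2 : ℕ) : ℤ) ∣ ((1 : ℕ) : ℤ) + m * x := by
        rintro x ⟨y, rfl⟩ ⟨z, hz⟩
        push_cast at hz
        have e : m * (2 * y) = 2 * (m * y) := by ring
        rw [e] at hz
        generalize m * y = w at hz
        omega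
      fin_cases i
      · exact key _ (by
          change (2 : ℤ) ∣ h 0
          omega)
      · exact key _ (by
          change (2 : ℤ) ∣ h 1
          omega)
      · exact key _ (by
          change (2 : ℤ) ∣ h 2
          omega)
      · exact key _ (by
          change (2 : ℤ) ∣ h 3
          omega)
    · have hA : ∀ (n : ℕ) (x : ℤ), (3 : ℤ) ∣ x → ¬ (3 : ℤ) ∣ (n : ℤ) →
          ¬ ((3 : ℕ) : ℤ) ∣ (n : ℤ) + m * x := by
        rintro n x ⟨y, rfl⟩ hn ⟨z, hz⟩
        apply hn
        refine ⟨z - m * y, ?_⟩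
        push_cast at hz
        linear_combination hz
      have hB : ∀ (n : ℕ) (x : ℤ), (3 : ℤ) ∣ x - 4 → ¬ (3 : ℤ) ∣ (n : ℤ) + m →
          ¬ ((3 : ℕ) : ℤ) ∣ (n : ℤ) + m * x := by
        rintro n x ⟨y, hy⟩ hn ⟨z, hz⟩
        apply hn
        have hx : x = 3 * y + 4 := by linarith
        refine ⟨z - m * y - m, ?_⟩
        push_cast at hz
        rw [hx] at hz
        linear_combination hz
      have hC : ∃ n : ℕ, ¬ (3 : ℤ) ∣ (n : ℤ) ∧ ¬ (3 : ℤ) ∣ (n : ℤ) + m := by
        by_cases hm : (3 : ℤ) ∣ 1 + m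
        · refine ⟨2, by norm_num, ?_⟩
          intro h5
          have h6 : (3 : ℤ) ∣ (2 : ℤ) + m := h5
          omega
        · refine ⟨1, by norm_num, ?_⟩
          intro h5
          exact hm h5
      obtain ⟨n, hn1, hn2⟩ := hC
      refine ⟨n, fun i => ?_⟩
      rw [hcast]
      fin_cases i
      · exact hA _ _ (by
          change (3 : ℤ) ∣ h 0
          omega) hn1
      · exact hA _ _ (by
          change (3 : ℤ) ∣ h 1
          omega) hn1
      · exact hB _ _ (by
          change (3 : ℤ) ∣ h 2 - 4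
          omega) hn2
      · exact hB _ _ (by
          change (3 : ℤ) ∣ h 3 - 4
          omega) hn2
  · by_contra hcon
    push Not at hcon
    have hcon' : ∀ n : Fin 5, ∃ i : Fin 4, (p : ℤ) ∣ ((n : ℕ) : ℤ) + m * h i := by
      intro n
      obtain ⟨i, hi⟩ := hcon (n : ℕ)
      rw [hcast] at hi
      exact ⟨i, hi⟩
    choose f hf using hcon'
    obtain ⟨n, n', hne, hff⟩ := Fintype.exists_ne_map_eq_of_card_lt f (by simp)
    have h4 := hf n
    have h5 := hf n'
    rw [hff] at h4
    have h6 : (p : ℤ) ∣ ((n : ℕ) : ℤ) - ((n' : ℕ) : ℤ) := by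
      have := dvd_sub h4 h5
      have e : ((n : ℕ) : ℤ) + m * h (f n') - (((n' : ℕ) : ℤ) + m * h (f n')) =
          ((n : ℕ) : ℤ) - ((n' : ℕ) : ℤ) := by ring
      rwa [e] at this
    have h7 : |((n : ℕ) : ℤ) - ((n' : ℕ) : ℤ)| < (p : ℤ) := by
      have hn := n.isLt
      have hn' := n'.isLt
      have hp5 : (5 : ℤ) ≤ p := by exact_mod_cast hge
      rw [abs_lt]
      constructor <;> omega
    have h8 := Int.eq_zero_of_abs_lt_dvd h6 h7
    apply hne
    apply Fin.ext
    omega

end Pool.Agent.AT
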